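import Pool.Agent.J4H64.TL.Bas

set_option autoImplicit false

/-! Job N55. -/

namespace Pool.Agent.J4H64.TL

open Finset Pool.Agent.J4H13.LA Pool.Agent.J4H13.TL

variable {n : ℕ} {Φ : Finset (Finset (Fin n))} {w : Fin n → ℕ}

/-- the number of the blocks with exactly three lines of weight 2 -/
lemma card_three (h : Sm Φ w) :
    (Φ.filter fun F => nu w 2 F = 3).card = ty Φ w 0 3 + ty Φ w 1 3 := by
  classical
  unfold ty
  rw [← card_union_of_disjoint]
  · congr 1
    ext F
    rw [mem_union, mem_filter, mem_filter, mem_filter]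
    constructor
    · rintro ⟨hF, h3⟩
      have h4 := h.four F hF
      have h5 : nu w 1 F + nu w 2 F ≤ F.card := by
        unfold nu
        rw [← card_union_of_disjoint]
        · exact card_le_card (union_subset (filter_subset _ _) (filter_subset _ _))
        · rw [disjoint_left]
          intro i hi hi'
          rw [mem_filter] at hi hi'
          omega
      have h6 : nu w 1 F = 0 ∨ nu w 1 F = 1 := by omega
      rcases h6 with h6 | h6
      · exact Or.inl ⟨hF, h6, h3⟩
      · exact Or.inr ⟨hF, h6, h3⟩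
    · rintro (⟨hF, _, h3⟩ | ⟨hF, _, h3⟩)
      · exact ⟨hF, h3⟩
      · exact ⟨hF, h3⟩
  · rw [disjoint_left]
    intro F hF hF'
    rw [mem_filter] at hF hF'
    omega

/-- a line of weight 2 which is in no special block -/
lemma iso (h : Sm Φ w) (hB : nu w 2 univ = 5) (h2 : ty Φ w 0 3 + ty Φ w 1 3 = 2) :
    ∃ v, w v = 2 ∧ ∀ P ∈ sp Φ w, v ∉ P := by
  classical
  have hcard := card_three h
  rw [h2] at hcard
  obtain ⟨F, F', hne, he⟩ := card_eq_two.1 hcard
  have hF : F ∈ Φ ∧ nu w 2 F = 3 := by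
    rw [← mem_filter (p := fun F => nu w 2 F = 3), he]
    simp
  have hF' : F' ∈ Φ ∧ nu w 2 F' = 3 := by
    rw [← mem_filter (p := fun F => nu w 2 F = 3), he]
    simp
  set T := F.filter fun i => w i = 2 with hT
  set T' := F'.filter fun i => w i = 2 with hT'
  set B := (univ : Finset (Fin n)).filter fun i => w i = 2 with hBd
  have cT : T.card = 3 := hF.2
  have cT' : T'.card = 3 := hF'.2
  have cB : B.card = 5 := hB
  have hTB : T ⊆ B := filter_subset_filter _ (subset_univ _)
  have hTB' : T' ⊆ B := filter_subset_filter _ (subset_univ _)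
  have hint : (T ∩ T').card ≤ 1 := by
    rw [card_le_one]
    intro i hi j hj
    by_contra hij
    rw [mem_inter, hT, hT', mem_filter, mem_filter] at hi hj
    exact hne (uniq h hF.1 hF'.1 hij hi.1.1 hj.1.1 hi.2.1 hj.2.1)
  have hun := card_union_add_card_inter T T'
  have hsub : T ∪ T' ⊆ B := union_subset hTB hTB'
  have hle := card_le_card hsub
  have hU : T ∪ T' = B := eq_of_subset_of_card_le hsub (by omega)
  obtain ⟨v, hv⟩ : (T ∩ T').Nonempty := card_pos.1 (by omega)
  rw [mem_inter, hT, hT', mem_filter, mem_filter] at hv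
  refine ⟨v, hv.1.2, fun P hP hvP => ?_⟩
  rw [mem_sp] at hP
  obtain ⟨x, y, hxy, hx, hy, _⟩ := two_in hP.2.2
  obtain ⟨z, hz, hzv⟩ : ∃ z, (z ∈ P ∧ w z = 2) ∧ z ≠ v := by
    by_cases hxv : x = v
    · exact ⟨y, hy, by rw [← hxv]; exact hxy.symm⟩
    · exact ⟨x, hx, hxv⟩
  have h3 : z ∈ T ∪ T' := by
    rw [hU, hBd, mem_filter]
    exact ⟨mem_univ z, hz.2⟩
  rcases mem_union.1 h3 with h3 | h3
  · have := uniq h hP.1 hF.1 hzv hz.1 hvP (mem_filter.1 h3).1 hv.1.1
    rw [this] at hP
    omega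
  · have := uniq h hP.1 hF'.1 hzv hz.1 hvP (mem_filter.1 h3).1 hv.2.1
    rw [this] at hP
    omega

/-- complements in a set of four elements -/
lemma comp_eq {α : Type} [DecidableEq α] {A P Q : Finset α} (hA : A.card = 4) (hP : P ⊆ A)
    (hQ : Q ⊆ A) (cP : P.card = 2) (cQ : Q.card = 2) (hd : Disjoint P Q) : P = A \ Q := by
  apply eq_of_subset_of_card_le
  · intro x hx
    exact mem_sdiff.2 ⟨hP hx, disjoint_left.1 hd hx⟩
  · rw [card_sdiff_of_subset hQ]
    omega

/-- special blocks with the same lines of weight 1 -/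
lemma eq_of_one (h : Sm Φ w) {P Q : Finset (Fin n)} (hP : P ∈ sp Φ w) (hQ : Q ∈ sp Φ w)
    {j : ℕ} (hj : nu w j P = 2)
    (he : (P.filter fun i => w i = j) = Q.filter fun i => w i = j) : P = Q := by
  obtain ⟨x, y, hxy, hx, hy, _⟩ := two_in hj
  have h1 : x ∈ Q.filter fun i => w i = j := by
    rw [← he, mem_filter]
    exact hx
  have h2 : y ∈ Q.filter fun i => w i = j := by
    rw [← he, mem_filter]
    exact hy
  exact uniq h (mem_sp.1 hP).1 (mem_sp.1 hQ).1 hxy hx.1 hy.1 (mem_filter.1 h1).1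
    (mem_filter.1 h2).1

/-- special blocks which meet in a line of weight 2 have disjoint sets of lines of weight 1 -/
lemma disj_one (h : Sm Φ w) {P Q : Finset (Fin n)} (hP : P ∈ sp Φ w) (hQ : Q ∈ sp Φ w)
    (hne : P ≠ Q) {x : Fin n} (hx : w x = 2) (h1 : x ∈ P) (h2 : x ∈ Q) :
    Disjoint (P.filter fun i => w i = 1) (Q.filter fun i => w i = 1) := by
  rw [disjoint_left]
  intro i hi hi'
  rw [mem_filter] at hi hi'
  have hix : i ≠ x := by
    rintro rfl
    omega
  exact hne (uniq h (mem_sp.1 hP).1 (mem_sp.1 hQ).1 hix hi.1 h1 hi'.1 h2)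

theorem t_N55 (hinq : S_INQ) : S_N55 := by
  classical
  intro n Φ w h hA hB hY hY'
  obtain ⟨i1, i2, i3, i4, _, _⟩ := hinq h
  rw [hB] at i1 i3
  rw [hA] at i2 i4
  have c5 : Nat.choose 5 2 = 10 := by decide
  rw [c5] at i1 i2
  rw [hA] at i3
  have hcases : (ty Φ w 2 2 = 5 ∧ ty Φ w 0 3 + ty Φ w 1 3 = 1) ∨
      (ty Φ w 2 2 = 4 ∧ ty Φ w 0 3 + ty Φ w 1 3 = 2 ∧ ty Φ w 3 0 + ty Φ w 3 1 = 2) := by
    omega
  rcases hcases with ⟨hx, h1⟩ | ⟨hx, h1, h2⟩
  · -- five special blocks
    have hcard := card_three h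
    rw [h1] at hcard
    obtain ⟨F, he⟩ := card_eq_one.1 hcard
    have hF : F ∈ Φ ∧ nu w 2 F = 3 := by
      rw [← mem_filter (p := fun F => nu w 2 F = 3), he]
      simp
    set T := F.filter fun i => w i = 2 with hT
    set B := (univ : Finset (Fin n)).filter fun i => w i = 2 with hBd
    have cT : T.card = 3 := hF.2
    have cB : B.card = 5 := hB
    have hTB : T ⊆ B := filter_subset_filter _ (subset_univ _)
    have dc : ∀ X : Finset (Fin n), ∑ v ∈ X, ((sp Φ w).filter fun P => v ∈ P).card =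
        ∑ P ∈ sp Φ w, (X.filter fun v => v ∈ P).card := by
      intro X
      simp only [card_filter]
      exact sum_comm
    have e1 : ∑ v ∈ B, ((sp Φ w).filter fun P => v ∈ P).card = 10 := by
      rw [dc]
      have : ∀ P ∈ sp Φ w, (B.filter fun v => v ∈ P).card = 2 := by
        intro P hP
        have e : (B.filter fun v => v ∈ P) = P.filter fun i => w i = 2 := by
          ext i
          simp only [hBd, mem_filter, mem_univ, true_and]
          exact and_comm
        rw [e]
        exact (mem_sp.1 hP).2.2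
      rw [sum_congr rfl this, sum_const, card_sp, hx]
      rfl
    have e2 : ∑ v ∈ T, ((sp Φ w).filter fun P => v ∈ P).card ≤ 5 := by
      rw [dc]
      have : ∀ P ∈ sp Φ w, (T.filter fun v => v ∈ P).card ≤ 1 := by
        intro P hP
        rw [card_le_one]
        intro i hi j hj
        by_contra hij
        rw [mem_filter, hT, mem_filter] at hi hj
        have := uniq h (mem_sp.1 hP).1 hF.1 hij hi.2 hj.2 hi.1.1 hj.1.1
        rw [this, mem_sp] at hP
        omega
      refine (sum_le_sum this).trans ?_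
      rw [sum_const, card_sp, hx]
      rfl
    have e3 : ∑ v ∈ B \ T, ((sp Φ w).filter fun P => v ∈ P).card ≤ 4 := by
      have : ∀ v ∈ B \ T, ((sp Φ w).filter fun P => v ∈ P).card ≤ 2 := by
        intro v hv
        have := deg_two h (mem_filter.1 (mem_sdiff.1 hv).1).2
        rw [hA] at this
        omega
      refine (sum_le_sum this).trans ?_
      rw [sum_const, card_sdiff_of_subset hTB, cB, cT]
      decide
    have e4 := sum_sdiff hTB (f := fun v => ((sp Φ w).filter fun P => v ∈ P).card)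
    omega
  · -- four special blocks
    obtain ⟨b₀, hb₀, hb⟩ := iso h hB h1
    obtain ⟨a₀, ha₀, ha⟩ := iso (sm_co h) (by rw [nu_co_two h.wt]; exact hA)
      (by rw [ty_co h.wt, ty_co h.wt]; exact h2)
    rw [sp_co h] at ha
    rw [co_two h.wt] at ha₀
    have side : ∀ j : ℕ, ∀ v, w v = j → nu w j univ = 5 →
        ∃ A : Finset (Fin n), A.card = 4 ∧ ∀ P ∈ sp Φ w, v ∉ P →
          (P.filter fun i => w i = j) ⊆ A := by
      intro j v hv hj
      refine ⟨((univ : Finset (Fin n)).filter fun i => w i = j).erase v, ?_, ?_⟩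
      · have hj' : ((univ : Finset (Fin n)).filter fun i => w i = j).card = 5 := hj
        rw [card_erase_of_mem (mem_filter.2 ⟨mem_univ v, hv⟩), hj']
      · intro P _ hvP i hi
        rw [mem_filter] at hi
        refine mem_erase.2 ⟨?_, mem_filter.2 ⟨mem_univ i, hi.2⟩⟩
        rintro rfl
        exact hvP hi.1
    obtain ⟨A, cA, hA'⟩ := side 1 a₀ ha₀ hA
    obtain ⟨B, cB, hB'⟩ := side 2 b₀ hb₀ hB
    have hsp : (sp Φ w).card = 4 := hx
    obtain ⟨Q, hQ⟩ : (sp Φ w).Nonempty := card_pos.1 (by omega)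
    have hQ' := mem_sp.1 hQ
    -- at most one special block is disjoint from `Q` in weight 2
    have h3 : (((sp Φ w).erase Q).filter fun P => Disjoint (P.filter fun i => w i = 2)
        (Q.filter fun i => w i = 2)).card ≤ 1 := by
      rw [card_le_one]
      intro P hP P' hP'
      rw [mem_filter, mem_erase] at hP hP'
      have p1 := mem_sp.1 hP.1.2
      have p2 := mem_sp.1 hP'.1.2
      have q1 := comp_eq cB (hB' P hP.1.2 (hb P hP.1.2)) (hB' Q hQ (hb Q hQ)) p1.2.2 hQ'.2.2 hP.2
      have q2 := comp_eq cB (hB' P' hP'.1.2 (hb P' hP'.1.2)) (hB' Q hQ (hb Q hQ)) p2.2.2 hQ'.2.2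
        hP'.2
      exact eq_of_one h hP.1.2 hP'.1.2 p1.2.2 (q1.trans q2.symm)
    have h4 := card_filter_add_card_filter_not (s := (sp Φ w).erase Q)
      (fun P => Disjoint (P.filter fun i => w i = 2) (Q.filter fun i => w i = 2))
    rw [card_erase_of_mem hQ, hsp] at h4
    obtain ⟨P, hP, P', hP', hne⟩ := one_lt_card.1 (show 1 < (((sp Φ w).erase Q).filter fun P =>
      ¬ Disjoint (P.filter fun i => w i = 2) (Q.filter fun i => w i = 2)).card by omega)
    rw [mem_filter, mem_erase, not_disjoint_iff] at hP hP'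
    obtain ⟨⟨n1, p1⟩, x, hx1, hx2⟩ := hP
    obtain ⟨⟨n2, p2⟩, y, hy1, hy2⟩ := hP'
    rw [mem_filter] at hx1 hx2 hy1 hy2
    have d1 := disj_one h p1 hQ n1 hx1.2 hx1.1 hx2.1
    have d2 := disj_one h p2 hQ n2 hy1.2 hy1.1 hy2.1
    have r1 := comp_eq cA (hA' P p1 (ha P p1)) (hA' Q hQ (ha Q hQ)) (mem_sp.1 p1).2.1 hQ'.2.1 d1
    have r2 := comp_eq cA (hA' P' p2 (ha P' p2)) (hA' Q hQ (ha Q hQ)) (mem_sp.1 p2).2.1 hQ'.2.1 d2
    exact hne (eq_of_one h p1 p2 (mem_sp.1 p1).2.1 (r1.trans r2.symm))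

end Pool.Agent.J4H64.TL
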