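import Pool.Agent.J4H64.TL.Bas

set_option autoImplicit false

/-! Job N66A. -/

namespace Pool.Agent.J4H64.TL

open Finset Pool.Agent.J4H13.LA Pool.Agent.J4H13.TL

variable {n : ℕ} {Φ : Finset (Finset (Fin n))} {w : Fin n → ℕ}

/-- each pair of lines of different weights is in a special block -/
lemma cover (h : Sm Φ w) (hA : nu w 1 univ = 6) (hB : nu w 2 univ = 6) (h9 : ty Φ w 2 2 = 9)
    {x y : Fin n} (hx : w x = 1) (hy : w y = 2) : ∃ P ∈ sp Φ w, x ∈ P ∧ y ∈ P := by
  classical
  set A := (univ : Finset (Fin n)).filter fun i => w i = 1 with hAd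
  set B := (univ : Finset (Fin n)).filter fun i => w i = 2 with hBd
  let g : Finset (Fin n) → Finset (Fin n × Fin n) := fun P =>
    (P.filter fun i => w i = 1) ×ˢ (P.filter fun i => w i = 2)
  have h1 : ((sp Φ w).biUnion g).card = 36 := by
    rw [card_biUnion]
    · have : ∀ P ∈ sp Φ w, (g P).card = 4 := by
        intro P hP
        rw [mem_sp] at hP
        have e1 : (P.filter fun i => w i = 1).card = 2 := hP.2.1
        have e2 : (P.filter fun i => w i = 2).card = 2 := hP.2.2
        rw [card_product, e1, e2]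
      rw [sum_congr rfl this, sum_const, card_sp, h9]
      rfl
    · intro P hP P' hP' hne
      rw [Function.onFun, disjoint_left]
      intro p hp hp'
      rw [mem_coe, mem_sp] at hP hP'
      simp only [g, mem_product, mem_filter] at hp hp'
      exact hne (disj_pairs h hP.1 hP'.1 hp.1.2 hp.2.2 hp.1.1 hp.2.1 hp'.1.1 hp'.2.1)
  have h2 : (sp Φ w).biUnion g ⊆ A ×ˢ B := by
    intro p hp
    obtain ⟨P, _, hp⟩ := mem_biUnion.1 hp
    simp only [g, mem_product, mem_filter] at hp
    exact mem_product.2 ⟨mem_filter.2 ⟨mem_univ _, hp.1.2⟩, mem_filter.2 ⟨mem_univ _, hp.2.2⟩⟩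
  have h3 : (A ×ˢ B).card = 36 := by
    have e1 : A.card = 6 := hA
    have e2 : B.card = 6 := hB
    rw [card_product, e1, e2]
  have h4 := eq_of_subset_of_card_le h2 (by rw [h1, h3])
  have h5 : (x, y) ∈ A ×ˢ B :=
    mem_product.2 ⟨mem_filter.2 ⟨mem_univ _, hx⟩, mem_filter.2 ⟨mem_univ _, hy⟩⟩
  rw [← h4, mem_biUnion] at h5
  obtain ⟨P, hP, h6⟩ := h5
  simp only [g, mem_product, mem_filter] at h6
  exact ⟨P, hP, h6.1.1, h6.2.1⟩

/-- each line of weight 2 is in exactly three special blocks -/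
lemma deg_three (h : Sm Φ w) (hA : nu w 1 univ = 6) (hB : nu w 2 univ = 6) (h9 : ty Φ w 2 2 = 9)
    {y : Fin n} (hy : w y = 2) : ((sp Φ w).filter fun P => y ∈ P).card = 3 := by
  classical
  have h1 := deg_two h hy
  have h2 : (univ : Finset (Fin n)).filter (fun i => w i = 1) ⊆
      ((sp Φ w).filter fun P => y ∈ P).biUnion fun P => P.filter fun i => w i = 1 := by
    intro x hx
    rw [mem_filter] at hx
    obtain ⟨P, hP, hxP, hyP⟩ := cover h hA hB h9 hx.2 hy
    exact mem_biUnion.2 ⟨P, mem_filter.2 ⟨hP, hyP⟩, mem_filter.2 ⟨hxP, hx.2⟩⟩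
  have h3 := (card_le_card h2).trans card_biUnion_le
  have h4 : ∑ P ∈ (sp Φ w).filter (fun P => y ∈ P), (P.filter fun i => w i = 1).card =
      2 * ((sp Φ w).filter fun P => y ∈ P).card := by
    rw [mul_comm, ← smul_eq_mul, ← sum_const]
    apply sum_congr rfl
    intro P hP
    exact (mem_sp.1 (mem_filter.1 hP).1).2.1
  rw [h4] at h3
  have h5 : ((univ : Finset (Fin n)).filter fun i => w i = 1).card = 6 := hA
  rw [h5] at h3
  omega

theorem t_N66A : S_N66A := by
  classical
  intro n Φ w h hA hB h9 h2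
  -- the block with three lines of weight 2
  obtain ⟨F, hF, hF3⟩ : ∃ F ∈ Φ, 3 ≤ nu w 2 F := by
    by_contra hcon
    push Not at hcon
    have e : ∀ α β, 3 ≤ β → ty Φ w α β = 0 := by
      intro α β hβ
      unfold ty
      rw [card_eq_zero, filter_eq_empty_iff]
      rintro F hF ⟨_, h3⟩
      have := hcon F hF
      omega
    rw [e 0 3 le_rfl, e 1 3 le_rfl, e 0 4 (by norm_num)] at h2
    omega
  set T := F.filter fun i => w i = 2 with hT
  set B := (univ : Finset (Fin n)).filter fun i => w i = 2 with hBd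
  have cB : B.card = 6 := hB
  have hTB : T ⊆ B := filter_subset_filter _ (subset_univ _)
  have hnin : ∀ P ∈ sp Φ w, ∀ x ∈ P, ∀ y ∈ P, x ≠ y → x ∈ F → y ∉ F := by
    intro P hP x hx y hy hxy hxF hyF
    rw [mem_sp] at hP
    have := uniq h hP.1 hF hxy hx hy hxF hyF
    rw [this] at hP
    omega
  -- the partners
  have hpart : ∀ y ∈ T, ∀ P ∈ (sp Φ w).filter (fun P => y ∈ P), ∃ z, z ∈ B \ T ∧ z ∈ P := by
    intro y hy P hP
    rw [mem_filter] at hP
    have hyF := mem_filter.1 hy
    obtain ⟨a, b, hab, ha, hb, hall⟩ := two_in (mem_sp.1 hP.1).2.2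
    have key : ∀ z, z ∈ P ∧ w z = 2 → z ≠ y → z ∈ B \ T := by
      intro z hz hzy
      refine mem_sdiff.2 ⟨mem_filter.2 ⟨mem_univ z, hz.2⟩, fun hzT => ?_⟩
      exact hnin P hP.1 y hP.2 z hz.1 hzy.symm hyF.1 (mem_filter.1 hzT).1
    by_cases hay : a = y
    · exact ⟨b, key b hb (by rw [← hay]; exact hab.symm), hb.1⟩
    · exact ⟨a, key a ha hay, ha.1⟩
  choose! z hz using hpart
  have hzinj : ∀ y ∈ T, Set.InjOn (z y) ((sp Φ w).filter fun P => y ∈ P) := by
    intro y hy P hP P' hP' e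
    rw [mem_coe] at hP hP'
    have h3 := hz y hy P hP
    have h4 := hz y hy P' hP'
    rw [← e] at h4
    have hne : z y P ≠ y := by
      intro e'
      have := (mem_sdiff.1 h3.1).2
      rw [e'] at this
      exact this hy
    exact uniq h (mem_sp.1 (mem_filter.1 hP).1).1 (mem_sp.1 (mem_filter.1 hP').1).1 hne h3.2
      (mem_filter.1 hP).2 h4.2 (mem_filter.1 hP').2
  have hdeg : ∀ y ∈ T, ((sp Φ w).filter fun P => y ∈ P).card = 3 := fun y hy =>
    deg_three h hA hB h9 (mem_filter.1 hy).2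
  have hsd := card_sdiff_of_subset hTB
  have cT : T.card = 3 := by
    have h3 : 3 ≤ T.card := hF3
    obtain ⟨y, hy⟩ : T.Nonempty := card_pos.1 (by omega)
    have h4 : ((sp Φ w).filter fun P => y ∈ P).card ≤ (B \ T).card :=
      card_le_card_of_injOn (z y) (fun P hP => mem_coe.2 (hz y hy P hP).1) (hzinj y hy)
    rw [hdeg y hy] at h4
    have h5 := card_le_card hTB
    omega
  have cBT : (B \ T).card = 3 := by omega
  -- every line outside of `T` is in a special block with each line of `T`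
  have hcov : ∀ y ∈ T, ∀ x, x ∉ T → ∃ P ∈ (sp Φ w).filter (fun P => y ∈ P), x ∈ P := by
    intro y hy x hx
    rcases h.wt x with hw | hw
    · obtain ⟨P, hP, h3, h4⟩ := cover h hA hB h9 hw (mem_filter.1 hy).2
      exact ⟨P, mem_filter.2 ⟨hP, h4⟩, h3⟩
    · have h3 : ((sp Φ w).filter fun P => y ∈ P).image (z y) = B \ T := by
        apply eq_of_subset_of_card_le
        · intro x hx
          obtain ⟨P, hP, rfl⟩ := mem_image.1 hx
          exact (hz y hy P hP).1
        · rw [card_image_of_injOn (hzinj y hy), hdeg y hy, cBT]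
      have h4 : x ∈ B \ T := mem_sdiff.2 ⟨mem_filter.2 ⟨mem_univ x, hw⟩, hx⟩
      rw [← h3, mem_image] at h4
      obtain ⟨P, hP, rfl⟩ := h4
      exact ⟨P, hP, (hz y hy P hP).2⟩
  -- the enumeration
  let b : Fin 3 → Fin n := T.orderEmbOfFin cT
  have hb : Function.Injective b := (orderEmbOfFin _ _).injective
  have hbT : ∀ i, b i ∈ T := fun i => orderEmbOfFin_mem T cT i
  have hTb : ∀ x, x ∈ T → ∃ i, b i = x := by
    intro x hx
    have : x ∈ Set.range (T.orderEmbOfFin cT) := by
      rw [range_orderEmbOfFin, mem_coe]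
      exact hx
    exact this
  let e : ∀ i, {P // P ∈ (sp Φ w).filter fun P => b i ∈ P} ≃ Fin 3 := fun i =>
    equivFinOfCardEq (hdeg _ (hbT i))
  let P : Fin 3 → Fin 3 → Finset (Fin n) := fun i p => ((e i).symm p).1
  have hP : ∀ i p, P i p ∈ sp Φ w ∧ b i ∈ P i p := fun i p => mem_filter.1 ((e i).symm p).2
  have hPi : ∀ i, Function.Injective (P i) := fun i =>
    Subtype.val_injective.comp (e i).symm.injective
  have hPs : ∀ i x, x ∉ T → ∃ p, x ∈ P i p := by
    intro i x hx
    obtain ⟨Q, hQ, hxQ⟩ := hcov _ (hbT i) x hx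
    refine ⟨e i ⟨Q, hQ⟩, ?_⟩
    show x ∈ ((e i).symm (e i ⟨Q, hQ⟩)).1
    rw [Equiv.symm_apply_apply]
    exact hxQ
  have hPne : ∀ i j p q, i ≠ j → P i p ≠ P j q := by
    intro i j p q hij he
    have h3 := hP i p
    have h4 := hP j q
    rw [← he] at h4
    exact hnin _ h3.1 _ h3.2 _ h4.2 (fun e => hij (hb e)) (mem_filter.1 (hbT i)).1
      (mem_filter.1 (hbT j)).1
  -- the nine lines
  have hPs' : ∀ i x, ∃ p, x ∉ T → x ∈ P i p := by
    intro i x
    by_cases hx : x ∉ T
    · obtain ⟨p, hp⟩ := hPs i x hx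
      exact ⟨p, fun _ => hp⟩
    · exact ⟨0, fun h => absurd h hx⟩
  choose g hg using hPs'
  have cC : (univ \ T).card = 9 := by
    rw [card_sdiff_of_subset (subset_univ _), cT]
    have h3 : (univ : Finset (Fin n)) = (univ.filter fun i => w i = 1) ∪
        (univ.filter fun i => w i = 2) := by
      ext i
      rw [mem_union, mem_filter, mem_filter]
      rcases h.wt i with hi | hi
      · simp [hi]
      · simp [hi]
    have h4 : (univ : Finset (Fin n)).card = 6 + 6 := by
      rw [h3, card_union_of_disjoint]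
      · exact congrArg₂ (· + ·) hA hB
      · rw [disjoint_left]
        intro i hi hi'
        rw [mem_filter] at hi hi'
        omega
    omega
  have hginj : Set.InjOn (fun x => (g 0 x, g 1 x)) (univ \ T : Finset (Fin n)) := by
    intro x hx y hy hxy
    rw [mem_coe, mem_sdiff] at hx hy
    simp only [Prod.mk.injEq] at hxy
    by_contra hne
    have e1 := hg 0 x hx.2
    have e2 := hg 1 x hx.2
    have e3 := hg 0 y hy.2
    have e4 := hg 1 y hy.2
    rw [← hxy.1] at e3
    rw [← hxy.2] at e4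
    exact hPne 0 1 _ _ (by decide) (uniq h (mem_sp.1 (hP 0 _).1).1 (mem_sp.1 (hP 1 _).1).1 hne
      e1 e3 e2 e4)
  have himg : (univ \ T : Finset (Fin n)).image (fun x => (g 0 x, g 1 x)) = univ := by
    apply eq_univ_of_card
    rw [card_image_of_injOn hginj, cC]
    rfl
  have hc : ∀ p q, ∃ x, x ∉ T ∧ g 0 x = p ∧ g 1 x = q := by
    intro p q
    have h3 := mem_univ (p, q)
    rw [← himg, mem_image] at h3
    obtain ⟨x, hx, he⟩ := h3
    rw [Prod.mk.injEq] at he
    exact ⟨x, (mem_sdiff.1 hx).2, he.1, he.2⟩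
  choose c hcT hc0 hc1 using hc
  have h0 : ∀ p q, c p q ∈ P 0 p := fun p q => by
    have := hg 0 _ (hcT p q)
    rwa [hc0] at this
  have h1 : ∀ p q, c p q ∈ P 1 q := fun p q => by
    have := hg 1 _ (hcT p q)
    rwa [hc1] at this
  refine ⟨b, F, P, c, fun p q => g 2 (c p q), hb, hF, fun i => (mem_filter.1 (hbT i)).1,
    fun i p => ⟨(mem_sp.1 (hP i p).1).1, (hP i p).2⟩, hPi, ?_, ?_⟩
  · intro p q q' he
    simp only at he
    have e1 := hg 2 _ (hcT p q)
    have e2 := hg 2 _ (hcT p q')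
    rw [← he] at e2
    have e3 : c p q = c p q' := by
      by_contra hne
      exact hPne 0 2 _ _ (by decide) (uniq h (mem_sp.1 (hP 0 _).1).1 (mem_sp.1 (hP 2 _).1).1 hne
        (h0 p q) (h0 p q') e1 e2)
    rw [← hc1 p q, ← hc1 p q', e3]
  · intro p q
    refine ⟨h0 p q, h1 p q, hg 2 _ (hcT p q), fun i he => ?_⟩
    exact hcT p q (by rw [he]; exact hbT i)

end Pool.Agent.J4H64.TL
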