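import Mathlib

set_option autoImplicit false

/-! Eight words of length four over three letters with pairwise at most one agreement. -/

namespace Pool.Agent.J4H64.TL

open Finset

lemma perm_ne (ρ ρ' : Equiv.Perm (Fin 3)) (h : ∀ i, ρ i ≠ ρ' i) :
    ρ ≠ ρ' ∧ Equiv.Perm.sign ρ = Equiv.Perm.sign ρ' := by
  revert ρ ρ'
  decide

lemma perm_one (ρ ρ' : Equiv.Perm (Fin 3)) (i : Fin 3) (h : ρ i = ρ' i)
    (h' : ∀ j, ρ j = ρ' j → j = i) : Equiv.Perm.sign ρ = -Equiv.Perm.sign ρ' := by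
  revert ρ ρ' i
  decide

/-- the words whose letter at `k` is `p` are the graph of a permutation (letters `0` and `1`) -/
def Gr (C : Finset (Fin 4 → Fin 3)) (k : Fin 4) (p : Fin 3) (ρ : Equiv.Perm (Fin 3)) : Prop :=
  ∀ i, ∃ c ∈ C, c 0 = i ∧ c 1 = ρ i ∧ c k = p

variable {C : Finset (Fin 4 → Fin 3)}

lemma gr_of (hd : ∀ c ∈ C, ∀ c' ∈ C, ∀ a b : Fin 4, a ≠ b → c a = c' a → c b = c' b → c = c')
    {k : Fin 4} (h0 : k ≠ 0) (h1 : k ≠ 1) {p : Fin 3} (h3 : 3 ≤ (C.filter fun c => c k = p).card) :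
    ∃ ρ, Gr C k p ρ := by
  have hex : ∀ i : Fin 3, ∃ c ∈ C, c 0 = i ∧ c k = p := by
    intro i
    have hinj : Set.InjOn (fun c : Fin 4 → Fin 3 => c 0) (C.filter fun c => c k = p) := by
      intro c hc c' hc' h
      rw [mem_coe, mem_filter] at hc hc'
      exact hd c hc.1 c' hc'.1 0 k h0.symm h (hc.2.trans hc'.2.symm)
    have h2 : ((C.filter fun c => c k = p).image fun c => c 0) = univ := by
      apply eq_univ_of_card
      rw [card_image_of_injOn hinj]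
      have := card_le_univ ((C.filter fun c => c k = p).image fun c => c 0)
      rw [card_image_of_injOn hinj] at this
      simp only [Fintype.card_fin] at this ⊢
      omega
    have h4 := mem_univ i
    rw [← h2, mem_image] at h4
    obtain ⟨c, hc, hi⟩ := h4
    rw [mem_filter] at hc
    exact ⟨c, hc.1, hi, hc.2⟩
  choose c hc hci hcp using hex
  have hinj : Function.Injective fun i => c i 1 := by
    intro i j h
    have h2 := hd _ (hc i) _ (hc j) 1 k h1.symm h ((hcp i).trans (hcp j).symm)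
    rw [← hci i, ← hci j, h2]
  refine ⟨Equiv.ofBijective _ (Finite.injective_iff_bijective.1 hinj), fun i => ?_⟩
  exact ⟨c i, hc i, hci i, rfl, hcp i⟩

/-- two letters at `k` occur three times -/
lemma two_of (hC : C.card = 8)
    (hd : ∀ c ∈ C, ∀ c' ∈ C, ∀ a b : Fin 4, a ≠ b → c a = c' a → c b = c' b → c = c')
    {k : Fin 4} (h0 : k ≠ 0) : ∃ p p' : Fin 3, p ≠ p' ∧ 3 ≤ (C.filter fun c => c k = p).card ∧
      3 ≤ (C.filter fun c => c k = p').card := by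
  have hle : ∀ p : Fin 3, (C.filter fun c => c k = p).card ≤ 3 := by
    intro p
    have hinj : Set.InjOn (fun c : Fin 4 → Fin 3 => c 0) (C.filter fun c => c k = p) := by
      intro c hc c' hc' h
      rw [mem_coe, mem_filter] at hc hc'
      exact hd c hc.1 c' hc'.1 0 k h0.symm h (hc.2.trans hc'.2.symm)
    rw [← card_image_of_injOn hinj]
    have := card_le_univ ((C.filter fun c => c k = p).image fun c => c 0)
    simpa using this
  have hsum : ∑ p : Fin 3, (C.filter fun c => c k = p).card = 8 := by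
    rw [← hC]
    exact (card_eq_sum_card_fiberwise (f := fun c : Fin 4 → Fin 3 => c k) (t := univ)
      (fun c _ => mem_univ _)).symm
  rw [Fin.sum_univ_three] at hsum
  have e0 := hle 0
  have e1 := hle 1
  have e2 := hle 2
  by_cases c0 : 3 ≤ (C.filter fun c => c k = (0 : Fin 3)).card
  · by_cases c1 : 3 ≤ (C.filter fun c => c k = (1 : Fin 3)).card
    · exact ⟨0, 1, by decide, c0, c1⟩
    · exact ⟨0, 2, by decide, c0, by omega⟩
  · exact ⟨1, 2, by decide, by omega, by omega⟩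

lemma gr_disj (hd : ∀ c ∈ C, ∀ c' ∈ C, ∀ a b : Fin 4, a ≠ b → c a = c' a → c b = c' b → c = c')
    {k : Fin 4} {p p' : Fin 3} (hp : p ≠ p') {ρ ρ' : Equiv.Perm (Fin 3)} (h : Gr C k p ρ)
    (h' : Gr C k p' ρ') : ρ ≠ ρ' ∧ Equiv.Perm.sign ρ = Equiv.Perm.sign ρ' := by
  apply perm_ne
  intro i hi
  obtain ⟨c, hc, c0, c1, ck⟩ := h i
  obtain ⟨c', hc', c0', c1', ck'⟩ := h' i
  have := hd c hc c' hc' 0 1 (by decide) (c0.trans c0'.symm) (c1.trans (hi.trans c1'.symm))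
  apply hp
  rw [← ck, ← ck', this]

lemma gr_one (hd : ∀ c ∈ C, ∀ c' ∈ C, ∀ a b : Fin 4, a ≠ b → c a = c' a → c b = c' b → c = c')
    {p q : Fin 3} {ρ ρ' : Equiv.Perm (Fin 3)} (h : Gr C 2 p ρ) (h' : Gr C 3 q ρ')
    (hp : 3 ≤ (C.filter fun c => c 2 = p).card) :
    Equiv.Perm.sign ρ = -Equiv.Perm.sign ρ' := by
  -- a word with the letters `p` and `q`
  obtain ⟨c, hc, hcp, hcq⟩ : ∃ c ∈ C, c 2 = p ∧ c 3 = q := by
    have hinj : Set.InjOn (fun c : Fin 4 → Fin 3 => c 3) (C.filter fun c => c 2 = p) := by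
      intro c hc c' hc' h
      rw [mem_coe, mem_filter] at hc hc'
      exact hd c hc.1 c' hc'.1 3 2 (by decide) h (hc.2.trans hc'.2.symm)
    have h2 : ((C.filter fun c => c 2 = p).image fun c => c 3) = univ := by
      apply eq_univ_of_card
      rw [card_image_of_injOn hinj]
      have := card_le_univ ((C.filter fun c => c 2 = p).image fun c => c 3)
      rw [card_image_of_injOn hinj] at this
      simp only [Fintype.card_fin] at this ⊢
      omega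
    have h4 := mem_univ q
    rw [← h2, mem_image] at h4
    obtain ⟨c, hc, hi⟩ := h4
    rw [mem_filter] at hc
    exact ⟨c, hc.1, hc.2, hi⟩
  have hat : ∀ i, ρ i = ρ' i → ∃ c' ∈ C, c' 0 = i ∧ c' 1 = ρ i ∧ c' 2 = p ∧ c' 3 = q := by
    intro i hi
    obtain ⟨c₁, hc₁, a0, a1, a2⟩ := h i
    obtain ⟨c₂, hc₂, b0, b1, b3⟩ := h' i
    have := hd c₁ hc₁ c₂ hc₂ 0 1 (by decide) (a0.trans b0.symm) (a1.trans (hi.trans b1.symm))
    subst this
    exact ⟨c₁, hc₁, a0, a1, a2, b3⟩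
  -- the agreement at the first letter of `c`
  have h1 : ρ (c 0) = c 1 := by
    obtain ⟨c₁, hc₁, a0, a1, a2⟩ := h (c 0)
    have := hd c₁ hc₁ c hc 0 2 (by decide) a0 (a2.trans hcp.symm)
    subst this
    exact a1.symm
  have h2 : ρ' (c 0) = c 1 := by
    obtain ⟨c₁, hc₁, a0, a1, a3⟩ := h' (c 0)
    have := hd c₁ hc₁ c hc 0 3 (by decide) a0 (a3.trans hcq.symm)
    subst this
    exact a1.symm
  refine perm_one ρ ρ' (c 0) (h1.trans h2.symm) ?_
  intro j hj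
  obtain ⟨c', hc', e0, _, e2, e3⟩ := hat j hj
  have := hd c' hc' c hc 2 3 (by decide) (e2.trans hcp.symm) (e3.trans hcq.symm)
  rw [← e0, this]

/-- a transversal -/
def TrC (C : Finset (Fin 4 → Fin 3)) (ρ : Equiv.Perm (Fin 3)) : Prop :=
  ∃ k : Fin 4, (k = 2 ∨ k = 3) ∧ ∃ p, Gr C k p ρ

/-- **The code lemma.** -/
theorem code8 (hC : C.card = 8)
    (hd : ∀ c ∈ C, ∀ c' ∈ C, ∀ a b : Fin 4, a ≠ b → c a = c' a → c b = c' b → c = c') :
    ∃ σ₁ σ₂ τ₁ τ₂ : Equiv.Perm (Fin 3), Equiv.Perm.sign σ₁ = 1 ∧ Equiv.Perm.sign σ₂ = 1 ∧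
      σ₁ ≠ σ₂ ∧ Equiv.Perm.sign τ₁ = -1 ∧ Equiv.Perm.sign τ₂ = -1 ∧ τ₁ ≠ τ₂ ∧
      TrC C σ₁ ∧ TrC C σ₂ ∧ TrC C τ₁ ∧ TrC C τ₂ := by
  obtain ⟨p, p', hpp, hp, hp'⟩ := two_of hC hd (k := 2) (by decide)
  obtain ⟨q, q', hqq, hq, hq'⟩ := two_of hC hd (k := 3) (by decide)
  obtain ⟨ρ₁, g₁⟩ := gr_of hd (by decide) (by decide) hp
  obtain ⟨ρ₂, g₂⟩ := gr_of hd (by decide) (by decide) hp'
  obtain ⟨ρ₃, g₃⟩ := gr_of hd (by decide) (by decide) hq
  obtain ⟨ρ₄, g₄⟩ := gr_of hd (by decide) (by decide) hq'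
  have s12 := gr_disj hd hpp g₁ g₂
  have s34 := gr_disj hd hqq g₃ g₄
  have s13 := gr_one hd g₁ g₃ hp
  have t1 : TrC C ρ₁ := ⟨2, Or.inl rfl, p, g₁⟩
  have t2 : TrC C ρ₂ := ⟨2, Or.inl rfl, p', g₂⟩
  have t3 : TrC C ρ₃ := ⟨3, Or.inr rfl, q, g₃⟩
  have t4 : TrC C ρ₄ := ⟨3, Or.inr rfl, q', g₄⟩
  rcases Int.units_eq_one_or (Equiv.Perm.sign ρ₁) with e | e
  · refine ⟨ρ₁, ρ₂, ρ₃, ρ₄, e, s12.2 ▸ e, s12.1, ?_, ?_, s34.1, t1, t2, t3, t4⟩
    · rw [s13] at e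
      rw [← e, neg_neg]
    · rw [← s34.2]
      rw [s13] at e
      rw [← e, neg_neg]
  · have e3 : Equiv.Perm.sign ρ₃ = 1 := by
      rw [s13] at e
      exact neg_injective e
    exact ⟨ρ₃, ρ₄, ρ₁, ρ₂, e3, s34.2 ▸ e3, s34.1, e, s12.2 ▸ e, s12.1, t3, t4, t1, t2⟩

end Pool.Agent.J4H64.TL
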