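import Pool.Agent.J4H64.TL.Bas
import Pool.Agent.J4H64.TL.Code

set_option autoImplicit false

/-! Job N66B. -/

namespace Pool.Agent.J4H64.TL

open Finset Pool.Agent.J4H13.LA Pool.Agent.J4H13.TL

variable {n : ℕ} {Φ : Finset (Finset (Fin n))} {w : Fin n → ℕ}

/-- the two blocks with three lines of weight 2 cover these lines -/
lemma side (h : Sm Φ w) (hA : nu w 1 univ = 6) (hB : nu w 2 univ = 6) (h8 : ty Φ w 2 2 = 8)
    (h2 : ty Φ w 0 3 + ty Φ w 1 3 = 2) :
    ∃ F ∈ Φ, ∃ F' ∈ Φ, nu w 2 F = 3 ∧ nu w 2 F' = 3 ∧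
      (∀ i, w i = 2 → ¬ (i ∈ F ∧ i ∈ F')) ∧ ∀ i, w i = 2 → (i ∈ F ∨ i ∈ F') := by
  classical
  -- two blocks
  have hcard : (Φ.filter fun F => nu w 2 F = 3).card = 2 := by
    refine Eq.trans ?_ h2
    unfold ty
    rw [← card_union_of_disjoint]
    · congr 1
      ext F
      rw [mem_union, mem_filter, mem_filter, mem_filter]
      constructor
      · rintro ⟨hF, h3⟩
        have h4 := h.four F hF
        have h5 : nu w 1 F + nu w 2 F ≤ F.card := by
          unfold nu
          rw [← card_union_of_disjoint]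
          · exact card_le_card (union_subset (filter_subset _ _) (filter_subset _ _))
          · rw [disjoint_left]
            intro i hi hi'
            rw [mem_filter] at hi hi'
            omega
        have h6 : nu w 1 F = 0 ∨ nu w 1 F = 1 := by omega
        rcases h6 with h6 | h6
        · exact Or.inl ⟨hF, h6, h3⟩
        · exact Or.inr ⟨hF, h6, h3⟩
      · rintro (⟨hF, _, h3⟩ | ⟨hF, _, h3⟩)
        · exact ⟨hF, h3⟩
        · exact ⟨hF, h3⟩
    · rw [disjoint_left]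
      intro F hF hF'
      rw [mem_filter] at hF hF'
      omega
  obtain ⟨F, F', hne, he⟩ := card_eq_two.1 hcard
  have hF : F ∈ Φ ∧ nu w 2 F = 3 := by
    rw [← mem_filter (p := fun F => nu w 2 F = 3), he]
    simp
  have hF' : F' ∈ Φ ∧ nu w 2 F' = 3 := by
    rw [← mem_filter (p := fun F => nu w 2 F = 3), he]
    simp
  set T := F.filter fun i => w i = 2 with hT
  set T' := F'.filter fun i => w i = 2 with hT'
  set B := (univ : Finset (Fin n)).filter fun i => w i = 2 with hBd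
  have cT : T.card = 3 := hF.2
  have cT' : T'.card = 3 := hF'.2
  have cB : B.card = 6 := hB
  have hTB : T ⊆ B := filter_subset_filter _ (subset_univ _)
  have hTB' : T' ⊆ B := filter_subset_filter _ (subset_univ _)
  have hint : (T ∩ T').card ≤ 1 := by
    rw [card_le_one]
    intro i hi j hj
    by_contra hij
    rw [mem_inter, hT, hT', mem_filter, mem_filter] at hi hj
    exact hne (uniq h hF.1 hF'.1 hij hi.1.1 hj.1.1 hi.2.1 hj.2.1)
  have hun := card_union_add_card_inter T T'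
  have hsub : T ∪ T' ⊆ B := union_subset hTB hTB'
  have hle := card_le_card hsub
  by_cases h0 : (T ∩ T').card = 0
  · -- the good case
    have hU : T ∪ T' = B := eq_of_subset_of_card_le hsub (by omega)
    refine ⟨F, hF.1, F', hF'.1, hF.2, hF'.2, ?_, ?_⟩
    · rintro i hi ⟨h1, h3⟩
      rw [card_eq_zero] at h0
      have : i ∈ T ∩ T' := mem_inter.2 ⟨mem_filter.2 ⟨h1, hi⟩, mem_filter.2 ⟨h3, hi⟩⟩
      rw [h0] at this
      exact absurd this (notMem_empty i)
    · intro i hi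
      have : i ∈ T ∪ T' := by
        rw [hU, hBd, mem_filter]
        exact ⟨mem_univ i, hi⟩
      rw [mem_union, hT, hT', mem_filter, mem_filter] at this
      rcases this with h1 | h1
      · exact Or.inl h1.1
      · exact Or.inr h1.1
  · -- the triples share a line
    exfalso
    have h1 : (T ∩ T').card = 1 := by omega
    have h5 : (T ∪ T').card = 5 := by omega
    have h6 : (B \ (T ∪ T')).card = 1 := by
      rw [card_sdiff_of_subset hsub]
      omega
    obtain ⟨v, hv⟩ := card_eq_one.1 h6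
    have hvm : v ∈ B \ (T ∪ T') := by
      rw [hv]
      exact mem_singleton_self v
    have hvB : w v = 2 := (mem_filter.1 (mem_sdiff.1 hvm).1).2
    have hdeg := deg_two h hvB
    rw [hA] at hdeg
    have hd1 : (T \ T').card = 2 := by
      have := card_sdiff_add_card_inter T T'
      omega
    have hd2 : (T' \ T).card = 2 := by
      have h7 := card_sdiff_add_card_inter T' T
      rw [inter_comm] at h7
      omega
    -- the special blocks which do not contain `v`
    have hex : ∀ P ∈ (sp Φ w).filter (fun P => v ∉ P), ∃ p : Fin n × Fin n,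
        p ∈ (T \ T') ×ˢ (T' \ T) ∧ p.1 ∈ P ∧ p.2 ∈ P := by
      intro P hP
      rw [mem_filter, mem_sp] at hP
      obtain ⟨⟨hPΦ, _, hP2⟩, hvP⟩ := hP
      obtain ⟨x, y, hxy, hx, hy, _⟩ := two_in hP2
      have hin : ∀ z, z ∈ P → w z = 2 → z ∈ T ∪ T' := by
        intro z hz hwz
        by_contra hcon
        have : z ∈ B \ (T ∪ T') := mem_sdiff.2 ⟨mem_filter.2 ⟨mem_univ z, hwz⟩, hcon⟩
        rw [hv, mem_singleton] at this
        rw [this] at hz
        exact hvP hz
      have hnT : ¬ (x ∈ T ∧ y ∈ T) := by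
        rintro ⟨h7, h8⟩
        have := uniq h hPΦ hF.1 hxy hx.1 hy.1 (mem_filter.1 h7).1 (mem_filter.1 h8).1
        rw [this] at hP2
        omega
      have hnT' : ¬ (x ∈ T' ∧ y ∈ T') := by
        rintro ⟨h7, h8⟩
        have := uniq h hPΦ hF'.1 hxy hx.1 hy.1 (mem_filter.1 h7).1 (mem_filter.1 h8).1
        rw [this] at hP2
        omega
      have hx1 := hin x hx.1 hx.2
      have hy1 := hin y hy.1 hy.2
      rw [mem_union] at hx1 hy1
      by_cases hxT : x ∈ T
      · have hyT : y ∉ T := fun h => hnT ⟨hxT, h⟩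
        have hyT' : y ∈ T' := hy1.resolve_left hyT
        have hxT' : x ∉ T' := fun h => hnT' ⟨h, hyT'⟩
        exact ⟨(x, y), mem_product.2 ⟨mem_sdiff.2 ⟨hxT, hxT'⟩, mem_sdiff.2 ⟨hyT', hyT⟩⟩, hx.1, hy.1⟩
      · have hxT' : x ∈ T' := hx1.resolve_left hxT
        have hyT' : y ∉ T' := fun h => hnT' ⟨hxT', h⟩
        have hyT : y ∈ T := hy1.resolve_right hyT'
        exact ⟨(y, x), mem_product.2 ⟨mem_sdiff.2 ⟨hyT, hyT'⟩, mem_sdiff.2 ⟨hxT', hxT⟩⟩, hy.1, hx.1⟩
    have : Nonempty (Fin n × Fin n) := ⟨(v, v)⟩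
    choose! f hf using hex
    have hc4 : ((sp Φ w).filter fun P => v ∉ P).card ≤ 4 := by
      have h7 : ((T \ T') ×ˢ (T' \ T)).card = 4 := by
        rw [card_product, hd1, hd2]
      rw [← h7]
      apply card_le_card_of_injOn f
      · intro P hP
        exact mem_coe.2 (hf P hP).1
      · intro P hP P' hP' hPP
        rw [mem_coe] at hP hP'
        have e1 := hf P hP
        have e2 := hf P' hP'
        rw [← hPP] at e2
        have e3 := mem_product.1 e1.1
        rw [mem_sdiff, mem_sdiff] at e3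
        have hne' : (f P).1 ≠ (f P).2 := by
          intro e
          rw [e] at e3
          exact e3.2.2 e3.1.1
        exact uniq h (mem_sp.1 (mem_filter.1 hP).1).1 (mem_sp.1 (mem_filter.1 hP').1).1 hne' e1.2.1
          e1.2.2 e2.2.1 e2.2.2
    have h9 := card_filter_add_card_filter_not (s := sp Φ w) (fun P => v ∈ P)
    rw [card_sp, h8] at h9
    omega

/-- enumerations of the lines of weight 2 -/
lemma side' (h : Sm Φ w) (hA : nu w 1 univ = 6) (hB : nu w 2 univ = 6) (h8 : ty Φ w 2 2 = 8)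
    (h2 : ty Φ w 0 3 + ty Φ w 1 3 = 2) :
    ∃ (b b' : Fin 3 → Fin n) (F F' : Finset (Fin n)), Function.Injective b ∧
      Function.Injective b' ∧ F ∈ Φ ∧ F' ∈ Φ ∧ (∀ i, b i ∈ F ∧ b i ∉ F') ∧
      (∀ i, b' i ∈ F' ∧ b' i ∉ F) ∧ (∀ i, w (b i) = 2) ∧ (∀ i, w (b' i) = 2) ∧
      ∀ P ∈ sp Φ w, (∃ i, b i ∈ P) ∧ ∃ i, b' i ∈ P := by
  classical
  obtain ⟨F, hF, F', hF', c, c', hd, hc⟩ := side h hA hB h8 h2
  have en : ∀ F : Finset (Fin n), nu w 2 F = 3 → ∃ b : Fin 3 → Fin n, Function.Injective b ∧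
      (∀ i, b i ∈ F ∧ w (b i) = 2) ∧ ∀ x ∈ F, w x = 2 → ∃ i, b i = x := by
    intro F hF
    have hs : (F.filter fun i => w i = 2).card = 3 := hF
    refine ⟨(F.filter fun i => w i = 2).orderEmbOfFin hs, (orderEmbOfFin _ _).injective, ?_, ?_⟩
    · intro i
      have := orderEmbOfFin_mem (F.filter fun i => w i = 2) hs i
      rwa [mem_filter] at this
    · intro x hx hwx
      have : x ∈ Set.range ((F.filter fun i => w i = 2).orderEmbOfFin hs) := by
        rw [range_orderEmbOfFin, mem_coe, mem_filter]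
        exact ⟨hx, hwx⟩
      exact this
  obtain ⟨b, hb, hb1, hb2⟩ := en F c
  obtain ⟨b', hb', hb1', hb2'⟩ := en F' c'
  refine ⟨b, b', F, F', hb, hb', hF, hF', fun i => ⟨(hb1 i).1, fun h3 => hd _ (hb1 i).2
    ⟨(hb1 i).1, h3⟩⟩, fun i => ⟨(hb1' i).1, fun h3 => hd _ (hb1' i).2 ⟨h3, (hb1' i).1⟩⟩,
    fun i => (hb1 i).2, fun i => (hb1' i).2, ?_⟩
  intro P hP
  rw [mem_sp] at hP
  obtain ⟨x, y, hxy, hx, hy, _⟩ := two_in hP.2.2
  have hn : ¬ (x ∈ F ∧ y ∈ F) := by
    rintro ⟨h3, h4⟩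
    have := uniq h hP.1 hF hxy hx.1 hy.1 h3 h4
    rw [this] at hP
    omega
  have hn' : ¬ (x ∈ F' ∧ y ∈ F') := by
    rintro ⟨h3, h4⟩
    have := uniq h hP.1 hF' hxy hx.1 hy.1 h3 h4
    rw [this] at hP
    omega
  rcases hc x hx.2 with h3 | h3
  · have h4 : y ∈ F' := (hc y hy.2).resolve_left fun h4 => hn ⟨h3, h4⟩
    obtain ⟨i, hi⟩ := hb2 x h3 hx.2
    obtain ⟨j, hj⟩ := hb2' y h4 hy.2
    exact ⟨⟨i, by rw [hi]; exact hx.1⟩, ⟨j, by rw [hj]; exact hy.1⟩⟩
  · have h4 : y ∈ F := (hc y hy.2).resolve_right fun h4 => hn' ⟨h3, h4⟩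
    obtain ⟨i, hi⟩ := hb2 y h4 hy.2
    obtain ⟨j, hj⟩ := hb2' x h3 hx.2
    exact ⟨⟨i, by rw [hi]; exact hy.1⟩, ⟨j, by rw [hj]; exact hx.1⟩⟩

theorem t_N66B : S_N66B := by
  classical
  intro n Φ w h hA hB h8 h2 h2'
  obtain ⟨b, b', F, F', ib, ib', hF, hF', h1, h1', wb, wb', hcov⟩ := side' h hA hB h8 h2
  obtain ⟨α, α', G, G', ia, ia', hG, hG', g1, g1', wa, wa', gcov⟩ := side' (sm_co h)
    (by rw [nu_co_one h.wt]; exact hB) (by rw [nu_co_two h.wt]; exact hA)
    (by rw [ty_co h.wt]; exact h8) (by rw [ty_co h.wt, ty_co h.wt]; exact h2')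
  rw [sp_co h] at gcov
  have wa1 : ∀ i, w (α i) = 1 := fun i => (co_two h.wt _).1 (wa i)
  have wa1' : ∀ i, w (α' i) = 1 := fun i => (co_two h.wt _).1 (wa' i)
  -- the four families
  let X : Fin 4 → Fin 3 → Fin n := ![b, b', α, α']
  have hX : ∀ P ∈ sp Φ w, ∀ k, ∃ p, X k p ∈ P := by
    intro P hP k
    fin_cases k
    · exact (hcov P hP).1
    · exact (hcov P hP).2
    · exact (gcov P hP).1
    · exact (gcov P hP).2
  have hbb' : ∀ i j, b i ≠ b' j := fun i j e => (h1 i).2 (by rw [e]; exact (h1' j).1)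
  have haa' : ∀ i j, α i ≠ α' j := fun i j e => (g1 i).2 (by rw [e]; exact (g1' j).1)
  have hba : ∀ i j, b i ≠ α j := fun i j e => by
    have e1 := wb i
    rw [e, wa1 j] at e1
    omega
  have hba' : ∀ i j, b i ≠ α' j := fun i j e => by
    have e1 := wb i
    rw [e, wa1' j] at e1
    omega
  have hb'a : ∀ i j, b' i ≠ α j := fun i j e => by
    have e1 := wb' i
    rw [e, wa1 j] at e1
    omega
  have hb'a' : ∀ i j, b' i ≠ α' j := fun i j e => by
    have e1 := wb' i
    rw [e, wa1' j] at e1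
    omega
  have hXne : ∀ k k' : Fin 4, k ≠ k' → ∀ p p', X k p ≠ X k' p' := by
    intro k k' hk p p'
    fin_cases k <;> fin_cases k' <;>
      first
        | exact absurd rfl hk
        | exact hbb' _ _
        | exact (hbb' _ _).symm
        | exact hba _ _
        | exact (hba _ _).symm
        | exact hba' _ _
        | exact (hba' _ _).symm
        | exact hb'a _ _
        | exact (hb'a _ _).symm
        | exact hb'a' _ _
        | exact (hb'a' _ _).symm
        | exact haa' _ _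
        | exact (haa' _ _).symm
  choose! c hc using hX
  have hagree : ∀ P ∈ sp Φ w, ∀ P' ∈ sp Φ w, ∀ a a' : Fin 4, a ≠ a' → c P a = c P' a →
      c P a' = c P' a' → P = P' := by
    intro P hP P' hP' a a' ha e e'
    refine uniq h (mem_sp.1 hP).1 (mem_sp.1 hP').1 (hXne a a' ha (c P a) (c P a')) (hc P hP a)
      (hc P hP a') ?_ ?_
    · rw [e]; exact hc P' hP' a
    · rw [e']; exact hc P' hP' a'
  let C : Finset (Fin 4 → Fin 3) := (sp Φ w).image c
  have hC8 : C.card = 8 := by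
    rw [card_image_of_injOn, card_sp, h8]
    intro P hP P' hP' e
    exact hagree P hP P' hP' 0 1 (by decide) (congrFun e 0) (congrFun e 1)
  obtain ⟨σ₁, σ₂, τ₁, τ₂, e1, e2, e3, e4, e5, e6, t1, t2, t3, t4⟩ := code8 hC8 (by
    intro x hx x' hx' a a' ha e e'
    obtain ⟨P, hP, rfl⟩ := mem_image.1 hx
    obtain ⟨P', hP', rfl⟩ := mem_image.1 hx'
    rw [hagree P hP P' hP' a a' ha e e'])
  have htr : ∀ ρ, TrC C ρ → Tr Φ b b' ρ := by
    rintro ρ ⟨k, _, p, hg⟩
    refine ⟨X k p, fun i => ?_⟩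
    obtain ⟨x, hx, x0, x1, xk⟩ := hg i
    obtain ⟨P, hP, rfl⟩ := mem_image.1 hx
    refine ⟨P, (mem_sp.1 hP).1, ?_, ?_, ?_⟩
    · rw [← x0]; exact hc P hP 0
    · rw [← x1]; exact hc P hP 1
    · rw [← xk]; exact hc P hP k
  exact ⟨b, b', F, F', σ₁, σ₂, τ₁, τ₂, ib, ib', hF, hF', h1, h1', e1, e2, e3, e4, e5, e6,
    htr _ t1, htr _ t2, htr _ t3, htr _ t4⟩

end Pool.Agent.J4H64.TL
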