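import Pool.Agent.J4H13.TL.Jobs

set_option autoImplicit false

/-! Basic facts about linear spaces with weights. -/

namespace Pool.Agent.J4H64.TL

open Finset Pool.Agent.J4H13.LA Pool.Agent.J4H13.TL

variable {n : ℕ} {Φ : Finset (Finset (Fin n))} {w : Fin n → ℕ}

/-- the special blocks -/
def sp (Φ : Finset (Finset (Fin n))) (w : Fin n → ℕ) : Finset (Finset (Fin n)) :=
  Φ.filter fun F => nu w 1 F = 2 ∧ nu w 2 F = 2

lemma card_sp : (sp Φ w).card = ty Φ w 2 2 := rfl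

lemma mem_sp {F : Finset (Fin n)} : F ∈ sp Φ w ↔ F ∈ Φ ∧ nu w 1 F = 2 ∧ nu w 2 F = 2 := mem_filter

lemma uniq (h : Sm Φ w) {F F' : Finset (Fin n)} (hF : F ∈ Φ) (hF' : F' ∈ Φ) {i j : Fin n}
    (hij : i ≠ j) (h1 : i ∈ F) (h2 : j ∈ F) (h3 : i ∈ F') (h4 : j ∈ F') : F = F' :=
  h.ls.2.2 F hF F' hF' i j hij h1 h2 h3 h4

lemma co_one (hw : IsWt w) (i : Fin n) : co w i = 1 ↔ w i = 2 := by
  unfold co
  rcases hw i with h | h <;> rw [h] <;> decide

lemma co_two (hw : IsWt w) (i : Fin n) : co w i = 2 ↔ w i = 1 := by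
  unfold co
  rcases hw i with h | h <;> rw [h] <;> decide

lemma co_wt (hw : IsWt w) : IsWt (co w) := by
  intro i
  rw [co_one hw, co_two hw]
  exact (hw i).symm

lemma nu_co_one (hw : IsWt w) (F : Finset (Fin n)) : nu (co w) 1 F = nu w 2 F := by
  unfold nu
  congr 1
  exact filter_congr fun i _ => co_one hw i

lemma nu_co_two (hw : IsWt w) (F : Finset (Fin n)) : nu (co w) 2 F = nu w 1 F := by
  unfold nu
  congr 1
  exact filter_congr fun i _ => co_two hw i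

lemma ty_co (hw : IsWt w) (α β : ℕ) : ty Φ (co w) α β = ty Φ w β α := by
  unfold ty
  congr 1
  apply filter_congr
  intro F _
  rw [nu_co_one hw, nu_co_two hw, and_comm]

lemma sm_co (h : Sm Φ w) : Sm Φ (co w) := ⟨h.ls, co_wt h.wt, h.four⟩

lemma sp_co (h : Sm Φ w) : sp Φ (co w) = sp Φ w := by
  ext F
  rw [mem_sp, mem_sp, nu_co_one h.wt, nu_co_two h.wt, and_comm (a := nu w 2 F = 2)]

/-- two different lines of weight `j` in a block -/
lemma two_in {j : ℕ} {F : Finset (Fin n)} (h : nu w j F = 2) :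
    ∃ x y, x ≠ y ∧ (x ∈ F ∧ w x = j) ∧ (y ∈ F ∧ w y = j) ∧ ∀ z ∈ F, w z = j → z = x ∨ z = y := by
  unfold nu at h
  obtain ⟨x, y, hxy, he⟩ := card_eq_two.1 h
  have h1 : ∀ z, z ∈ F ∧ w z = j ↔ z = x ∨ z = y := by
    intro z
    have h2 := Finset.ext_iff.1 he z
    rwa [mem_filter, mem_insert, mem_singleton] at h2
  exact ⟨x, y, hxy, (h1 x).2 (Or.inl rfl), (h1 y).2 (Or.inr rfl), fun z hz hw => (h1 z).1 ⟨hz, hw⟩⟩

/-- the degree of a line of weight 2 -/
lemma deg_two (h : Sm Φ w) {v : Fin n} (hv : w v = 2) :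
    2 * ((sp Φ w).filter fun P => v ∈ P).card ≤ nu w 1 univ := by
  classical
  have h1 : ∑ P ∈ (sp Φ w).filter (fun P => v ∈ P), nu w 1 P =
      2 * ((sp Φ w).filter fun P => v ∈ P).card := by
    rw [mul_comm, ← smul_eq_mul, ← sum_const]
    apply sum_congr rfl
    intro P hP
    exact (mem_sp.1 (mem_filter.1 hP).1).2.1
  rw [← h1]
  unfold nu
  rw [← card_biUnion]
  · apply card_le_card
    intro i hi
    obtain ⟨P, _, hi⟩ := mem_biUnion.1 hi
    exact mem_filter.2 ⟨mem_univ i, (mem_filter.1 hi).2⟩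
  · intro P hP P' hP' hne
    rw [Function.onFun, disjoint_left]
    intro i hi hi'
    rw [mem_coe, mem_filter] at hP hP'
    rw [mem_filter] at hi hi'
    apply hne
    have hiv : i ≠ v := by
      rintro rfl
      have := hi.2
      omega
    exact uniq h (mem_sp.1 hP.1).1 (mem_sp.1 hP'.1).1 hiv hi.1 hP.2 hi'.1 hP'.2

/-- the pairs `(line of weight 1, line of weight 2)` in special blocks -/
lemma disj_pairs (h : Sm Φ w) {P P' : Finset (Fin n)} (hP : P ∈ Φ) (hP' : P' ∈ Φ) {i j : Fin n}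
    (hi : w i = 1) (hj : w j = 2) (h1 : i ∈ P) (h2 : j ∈ P) (h3 : i ∈ P') (h4 : j ∈ P') : P = P' :=
  uniq h hP hP' (by rintro rfl; omega) h1 h2 h3 h4

end Pool.Agent.J4H64.TL
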